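import Pool.Agent.Lib.MP_291637_al_BGroups.Converse

set_option autoImplicit false

namespace Pool.Agent.Results.MP_291637_al.DaggerCriterion

open Pool.Agent.MP_291637_al

/-- Exact description of the infinite groups failing property (†). -/
theorem result (X : Type) [Group X] [Infinite X] :
    ¬ Dagger X ↔
    ∃ (F I : Subgroup X) (k : X), F.Normal ∧ Finite F ∧ F ≤ I ∧ I.Normal ∧ I.FiniteIndex ∧
      (∀ x ∈ I, ∀ y ∈ I, x * y * x⁻¹ * y⁻¹ ∈ F) ∧ k * k ≠ 1 ∧ k * k ∈ F ∧
      ∀ x ∈ I, k * x * k⁻¹ * x ∈ F := by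
  constructor
  · intro h
    rw [not_dagger_iff] at h
    obtain ⟨P, Z, hP, hcov⟩ := h
    exact IsTwistedDihedral.of_cover P Z hP hcov
  · intro h
    exact IsTwistedDihedral.not_dagger h

end Pool.Agent.Results.MP_291637_al.DaggerCriterion
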