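import Mathlib
import Pool.Agent.Lib.MP_291637_al_h16.Defs
import Pool.Agent.Lib.MP_291637_al_h16.Main

set_option autoImplicit false

namespace Pool.Agent.Results.MP_291637_al.DicyclicBGroups

open Pool.Agent.BG Pool.Agent.BG.PP Pool.Agent.BGroups

/-- For every odd prime `p` the generalised dicyclic group over `ℤ(p^∞) × C₂` is a countably
infinite B-group, and these groups are pairwise non-isomorphic. -/
theorem result :
    (∀ (p : ℕ) [Fact p.Prime], p ≠ 2 →
      Countable (Dic (Quasi p)) ∧ Infinite (Dic (Quasi p)) ∧ IsBGroup (Dic (Quasi p))) ∧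
    ∀ (p q : ℕ) [Fact p.Prime] [Fact q.Prime], p ≠ 2 → q ≠ 2 →
      Nonempty (Dic (Quasi p) ≃* Dic (Quasi q)) → p = q := by
  refine ⟨?_, fun p q _ _ hp _ h => eq_of_iso hp h⟩
  intro p hp hp2
  have := pruf (hp.out.odd_of_ne_two hp2)
  exact ⟨countable_dic, infinite_dic, isBGroup_dic⟩

end Pool.Agent.Results.MP_291637_al.DicyclicBGroups
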