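import Pool.Agent.Lib.MP_291637_al_BGroups.Rook

set_option autoImplicit false

namespace Pool.Agent.Results.MP_291637_al.ExactFactorization

open Pool.Agent.MP_291637_al

/-- A countable group with an exact factorization into two infinite subgroups is not a B-group. -/
theorem result (X : Type) [Group X] [Countable X] (A B : Subgroup X)
    (hA : Infinite A) (hB : Infinite B) (hAB : A ⊓ B = ⊥)
    (h : ∀ x : X, ∃ a ∈ A, ∃ b ∈ B, a * b = x) : ¬ IsBGroup X :=
  not_isBGroup_of_factorization A B hAB h

end Pool.Agent.Results.MP_291637_al.ExactFactorization
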