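import Mathlib

namespace Pool.Agent.Results.MP_291637_al.NoSolubleNormal

theorem orbit_mem {A : Type*} [AddCommGroup A] (L : A ≃ₗ[ℤ] A) (u : A) (d : ℕ)
    (h1 : (L ^ d) u ∈ AddSubgroup.closure ((fun j : ℕ => (L ^ j) u) '' Set.Iio d))
    (h2 : (L⁻¹) u ∈ AddSubgroup.closure ((fun j : ℕ => (L ^ j) u) '' Set.Iio d)) (n : ℤ) :
    (L ^ n) u ∈ AddSubgroup.closure ((fun j : ℕ => (L ^ j) u) '' Set.Iio d) := by
  set B := AddSubgroup.closure ((fun j : ℕ => (L ^ j) u) '' Set.Iio d) with hB
  have hS : ∀ j : ℕ, j < d → (L ^ j) u ∈ B := fun j hj =>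
    AddSubgroup.subset_closure ⟨j, hj, rfl⟩
  have hu : u ∈ B := by
    rcases Nat.eq_zero_or_pos d with hd | hd
    · have : (L ^ d) u = u := by rw [hd]; simp
      rw [this] at h1
      exact h1
    · simpa using hS 0 hd
  have hL : ∀ x ∈ B, L x ∈ B := by
    intro x hx
    refine AddSubgroup.closure_induction (p := fun x _ => L x ∈ B) ?_ ?_ ?_ ?_ hx
    · rintro _ ⟨j, hj, rfl⟩
      have e : L ((L ^ j) u) = (L ^ (j + 1)) u := by
        rw [pow_succ']; rfl
      change L ((L ^ j) u) ∈ B
      rw [e]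
      rcases Nat.lt_or_ge (j + 1) d with h | h
      · exact hS _ h
      · have : j + 1 = d := by
          have : j < d := hj
          omega
        rw [this]; exact h1
    · rw [map_zero]; exact B.zero_mem
    · intro x y _ _ hx hy
      rw [map_add]; exact B.add_mem hx hy
    · intro x _ hx
      rw [map_neg]; exact B.neg_mem hx
  have hL' : ∀ x ∈ B, (L⁻¹) x ∈ B := by
    intro x hx
    refine AddSubgroup.closure_induction (p := fun x _ => (L⁻¹) x ∈ B) ?_ ?_ ?_ ?_ hx
    · rintro _ ⟨j, hj, rfl⟩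
      change (L⁻¹) ((L ^ j) u) ∈ B
      rcases j with _ | j
      · simpa using h2
      · have e : (L⁻¹) ((L ^ (j + 1)) u) = (L ^ j) u := by
          have : (L⁻¹ * L ^ (j + 1)) u = (L ^ j) u := by
            rw [pow_succ', inv_mul_cancel_left]
          exact this
        rw [e]
        have : j + 1 < d := hj
        exact hS _ (by omega)
    · rw [map_zero]; exact B.zero_mem
    · intro x y _ _ hx hy
      rw [map_add]; exact B.add_mem hx hy
    · intro x _ hx
      rw [map_neg]; exact B.neg_mem hx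
  induction n using Int.induction_on with
  | zero => simpa using hu
  | succ i ih =>
    have : (L ^ ((i : ℤ) + 1)) u = L ((L ^ (i : ℤ)) u) := by
      rw [add_comm, zpow_add, zpow_one]; rfl
    rw [this]; exact hL _ ih
  | pred i ih =>
    have : (L ^ (-(i : ℤ) - 1)) u = (L⁻¹) ((L ^ (-(i : ℤ))) u) := by
      rw [sub_eq_add_neg, add_comm, zpow_add, zpow_neg_one]; rfl
    rw [this]; exact hL' _ ih

theorem relation {A : Type*} [AddCommGroup A] (L : A ≃ₗ[ℤ] A) (u : A) (k k' m : ℕ) (hk : k ≠ k')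
    (h : u - L u + (L ^ (k' + 2)) u = (L ^ m) (u - L u + (L ^ (k + 2)) u)) :
    ∃ d : ℕ, (L ^ d) u ∈ AddSubgroup.closure ((fun j : ℕ => (L ^ j) u) '' Set.Iio d) ∧
      (L⁻¹) u ∈ AddSubgroup.closure ((fun j : ℕ => (L ^ j) u) '' Set.Iio d) := by
  have e1 : (L ^ m) (u - L u + (L ^ (k + 2)) u)
      = (L ^ m) u - (L ^ (m + 1)) u + (L ^ (m + k + 2)) u := by
    rw [map_add, map_sub]
    have a1 : (L ^ m) (L u) = (L ^ (m + 1)) u := by rw [pow_succ]; rfl
    have a2 : (L ^ m) ((L ^ (k + 2)) u) = (L ^ (m + k + 2)) u := by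
      rw [add_assoc m k 2, pow_add L m (k + 2)]; rfl
    rw [a1, a2]
  rw [e1] at h
  have hinv : ∀ j : ℕ, (L⁻¹) ((L ^ (j + 1)) u) = (L ^ j) u := by
    intro j
    have : (L⁻¹ * L ^ (j + 1)) u = (L ^ j) u := by
      rw [pow_succ', inv_mul_cancel_left]
    exact this
  have hLu : L u = (L ^ 1) u := by rw [pow_one]
  have hu0 : u = (L ^ 0) u := by rw [pow_zero]; rfl
  have mem : ∀ d j : ℕ, j < d →
      (L ^ j) u ∈ AddSubgroup.closure ((fun j : ℕ => (L ^ j) u) '' Set.Iio d) :=
    fun d j hj => AddSubgroup.subset_closure ⟨j, hj, rfl⟩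
  rcases Nat.eq_zero_or_pos m with hm | hm
  · subst hm
    have h3 : (L ^ (k' + 2)) u = (L ^ (k + 2)) u := by
      have : u - L u + (L ^ (k' + 2)) u = u - L u + (L ^ (k + 2)) u := by
        rw [h]; simp
      exact add_left_cancel this
    -- a positive power fixes u
    obtain ⟨e, he, hfix⟩ : ∃ e : ℕ, 0 < e ∧ (L ^ e) u = u := by
      rcases Nat.lt_or_ge k k' with hlt | hge
      · refine ⟨k' - k, by omega, ?_⟩
        apply (L ^ (k + 2)).injective
        have : (L ^ (k + 2)) ((L ^ (k' - k)) u) = (L ^ (k' + 2)) u := by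
          have e : k' + 2 = (k + 2) + (k' - k) := by omega
          rw [e, pow_add L (k + 2) (k' - k)]; rfl
        rw [this, h3]
      · refine ⟨k - k', by omega, ?_⟩
        apply (L ^ (k' + 2)).injective
        have : (L ^ (k' + 2)) ((L ^ (k - k')) u) = (L ^ (k + 2)) u := by
          have e : k + 2 = (k' + 2) + (k - k') := by omega
          rw [e, pow_add L (k' + 2) (k - k')]; rfl
        rw [this, h3]
    refine ⟨e, ?_, ?_⟩
    · rw [hfix]
      have := mem e 0 he
      rwa [← hu0] at this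
    · obtain ⟨e', rfl⟩ : ∃ e', e = e' + 1 := ⟨e - 1, by omega⟩
      have h4 := hinv e'
      rw [hfix] at h4
      rw [h4]
      exact mem _ _ (by omega)
  · obtain ⟨m', rfl⟩ : ∃ m', m = m' + 1 := ⟨m - 1, by omega⟩
    have hb : (L⁻¹) u = (L ^ 0) u - (L ^ (k' + 1)) u + (L ^ m') u - (L ^ (m' + 1)) u
        + (L ^ (m' + 1 + k + 1)) u := by
      have h5 : u = (L ^ (0 + 1)) u - (L ^ (k' + 1 + 1)) u + (L ^ (m' + 1)) u
          - (L ^ (m' + 1 + 1)) u + (L ^ (m' + 1 + k + 1 + 1)) u := by
        have h6 : (L ^ (0 + 1)) u = L u := by rw [zero_add, pow_one]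
        have h7 : (L ^ (k' + 1 + 1)) u = (L ^ (k' + 2)) u := rfl
        have h8 : (L ^ (m' + 1 + k + 1 + 1)) u = (L ^ (m' + 1 + k + 2)) u := rfl
        rw [h6, h7, h8]
        have h9 : u = (u - L u + (L ^ (k' + 2)) u) + L u - (L ^ (k' + 2)) u := by abel
        calc u = (u - L u + (L ^ (k' + 2)) u) + L u - (L ^ (k' + 2)) u := h9
          _ = _ := by rw [h]; abel
      calc (L⁻¹) u = (L⁻¹) ((L ^ (0 + 1)) u - (L ^ (k' + 1 + 1)) u + (L ^ (m' + 1)) u
          - (L ^ (m' + 1 + 1)) u + (L ^ (m' + 1 + k + 1 + 1)) u) := by rw [← h5]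
        _ = _ := by
          rw [map_add, map_sub, map_add, map_sub, hinv, hinv, hinv, hinv, hinv]
    rcases Nat.lt_trichotomy (k' + 2) (m' + 1 + k + 2) with hlt | heq | hgt
    · refine ⟨m' + 1 + k + 2, ?_, ?_⟩
      · have h6 : (L ^ (m' + 1 + k + 2)) u = (L ^ 0) u - (L ^ 1) u + (L ^ (k' + 2)) u
            - (L ^ (m' + 1)) u + (L ^ (m' + 1 + 1)) u := by
          rw [← hLu, ← hu0, h]; abel
        rw [h6]
        exact AddSubgroup.add_mem _ (AddSubgroup.sub_mem _ (AddSubgroup.add_mem _
          (AddSubgroup.sub_mem _ (mem _ _ (by omega)) (mem _ _ (by omega)))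
          (mem _ _ (by omega))) (mem _ _ (by omega))) (mem _ _ (by omega))
      · rw [hb]
        exact AddSubgroup.add_mem _ (AddSubgroup.sub_mem _ (AddSubgroup.add_mem _
          (AddSubgroup.sub_mem _ (mem _ _ (by omega)) (mem _ _ (by omega)))
          (mem _ _ (by omega))) (mem _ _ (by omega))) (mem _ _ (by omega))
    · have hk' : k' = m' + 1 + k := by omega
      subst hk'
      have h7 : u - L u = (L ^ (m' + 1)) u - (L ^ (m' + 1 + 1)) u := add_right_cancel h
      refine ⟨m' + 2, ?_, ?_⟩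
      · have h6 : (L ^ (m' + 2)) u = (L ^ (m' + 1)) u - (L ^ 0) u + (L ^ 1) u := by
          rw [← hLu, ← hu0]
          have : (L ^ (m' + 2)) u = (L ^ (m' + 1)) u
              - ((L ^ (m' + 1)) u - (L ^ (m' + 1 + 1)) u) := by
            have : (L ^ (m' + 1 + 1)) u = (L ^ (m' + 2)) u := rfl
            rw [this]; abel
          rw [this, ← h7]; abel
        rw [h6]
        exact AddSubgroup.add_mem _ (AddSubgroup.sub_mem _ (mem _ _ (by omega))
          (mem _ _ (by omega))) (mem _ _ (by omega))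
      · have h8 : u = (L ^ (0 + 1)) u + (L ^ (m' + 1)) u - (L ^ (m' + 1 + 1)) u := by
          have h6 : (L ^ (0 + 1)) u = L u := by rw [zero_add, pow_one]
          rw [h6, add_sub_assoc, ← h7]; abel
        have h9 : (L⁻¹) u = (L ^ 0) u + (L ^ m') u - (L ^ (m' + 1)) u := by
          calc (L⁻¹) u = (L⁻¹) ((L ^ (0 + 1)) u + (L ^ (m' + 1)) u - (L ^ (m' + 1 + 1)) u) := by
                rw [← h8]
            _ = _ := by rw [map_sub, map_add, hinv, hinv, hinv]
        rw [h9]
        exact AddSubgroup.sub_mem _ (AddSubgroup.add_mem _ (mem _ _ (by omega))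
          (mem _ _ (by omega))) (mem _ _ (by omega))
    · refine ⟨k' + 2, ?_, ?_⟩
      · have h6 : (L ^ (k' + 2)) u = (L ^ (m' + 1)) u - (L ^ (m' + 1 + 1)) u
            + (L ^ (m' + 1 + k + 2)) u - (L ^ 0) u + (L ^ 1) u := by
          rw [← hLu, ← hu0, ← h]; abel
        rw [h6]
        exact AddSubgroup.add_mem _ (AddSubgroup.sub_mem _ (AddSubgroup.add_mem _
          (AddSubgroup.sub_mem _ (mem _ _ (by omega)) (mem _ _ (by omega)))
          (mem _ _ (by omega))) (mem _ _ (by omega))) (mem _ _ (by omega))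
      · rw [hb]
        exact AddSubgroup.add_mem _ (AddSubgroup.sub_mem _ (AddSubgroup.add_mem _
          (AddSubgroup.sub_mem _ (mem _ _ (by omega)) (mem _ _ (by omega)))
          (mem _ _ (by omega))) (mem _ _ (by omega))) (mem _ _ (by omega))

theorem core {A : Type*} [AddCommGroup A] (L : A ≃ₗ[ℤ] A) (w : A) (f : Equiv.Perm A)
    (hf : ∀ v, f v = L v + w) (F : Finset A) (hF : ∀ v, ∃ i ∈ F, ∃ n : ℤ, v = (f ^ n) i) :
    AddGroup.FG A := by
  classical
  set g : A → A := fun v => L v - v + w with hg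
  have hgf : ∀ v, g (f v) = L (g v) := by
    intro v
    simp only [hg, hf, map_add, map_sub]
    abel
  have hgf' : ∀ v, g (f⁻¹ v) = (L⁻¹) (g v) := by
    intro v
    apply L.injective
    have h1 : L ((L⁻¹) (g v)) = g v := by
      have : (L * L⁻¹) (g v) = g v := by rw [mul_inv_cancel]; rfl
      exact this
    rw [← hgf, h1]
    congr 1
    exact Equiv.apply_symm_apply f v
  have hgn : ∀ (n : ℤ) (v : A), g ((f ^ n) v) = (L ^ n) (g v) := by
    intro n v
    induction n using Int.induction_on with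
    | zero => simp
    | succ i ih =>
      have e1 : (f ^ ((i : ℤ) + 1)) v = f ((f ^ (i : ℤ)) v) := by
        rw [add_comm, zpow_add, zpow_one]; rfl
      have e2 : (L ^ ((i : ℤ) + 1)) (g v) = L ((L ^ (i : ℤ)) (g v)) := by
        rw [add_comm, zpow_add, zpow_one]; rfl
      rw [e1, e2, hgf, ih]
    | pred i ih =>
      have e1 : (f ^ (-(i : ℤ) - 1)) v = f⁻¹ ((f ^ (-(i : ℤ))) v) := by
        rw [sub_eq_add_neg, add_comm, zpow_add, zpow_neg_one]; rfl
      have e2 : (L ^ (-(i : ℤ) - 1)) (g v) = (L⁻¹) ((L ^ (-(i : ℤ))) (g v)) := by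
        rw [sub_eq_add_neg, add_comm, zpow_add, zpow_neg_one]; rfl
      rw [e1, e2, hgf', ih]
  have htel : ∀ (u : A) (k : ℕ), ∃ t, L t - t = (L ^ (k + 2)) u - L u := by
    intro u k
    induction k with
    | zero =>
      refine ⟨L u, ?_⟩
      have : (L ^ (0 + 2)) u = L (L u) := by rw [zero_add, pow_two]; rfl
      rw [this]
    | succ k ih =>
      obtain ⟨t, ht⟩ := ih
      refine ⟨t + (L ^ (k + 2)) u, ?_⟩
      have : L ((L ^ (k + 2)) u) = (L ^ (k + 1 + 2)) u := by
        have e : k + 1 + 2 = (k + 2) + 1 := by omega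
        rw [e, pow_succ' L (k + 2)]; rfl
      rw [map_add, this]
      have : L t = (L ^ (k + 2)) u - L u + t := by rw [← ht]; abel
      rw [this]; abel
  have claim : ∀ v0 : A, ∃ S : Finset A, ∀ n : ℤ,
      (L ^ n) (g v0) ∈ AddSubgroup.closure (S : Set A) := by
    intro v0
    set u := g v0 with hu
    choose t ht using htel u
    have hy : ∀ k, g (v0 + t k) = u - L u + (L ^ (k + 2)) u := by
      intro k
      have h1 : g (v0 + t k) = g v0 + (L (t k) - t k) := by
        simp only [hg, map_add]; abel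
      rw [h1, ht, ← hu]; abel
    have hch : ∀ k, ∃ i : F, ∃ n : ℤ, v0 + t k = (f ^ n) i := by
      intro k
      obtain ⟨i, hi, n, hn⟩ := hF (v0 + t k)
      exact ⟨⟨i, hi⟩, n, hn⟩
    choose i n hin using hch
    obtain ⟨k, k', hne, heq⟩ := Finite.exists_ne_map_eq_of_infinite i
    have hrel : ∀ a b : ℕ, i a = i b → u - L u + (L ^ (b + 2)) u
        = (L ^ (n b - n a)) (u - L u + (L ^ (a + 2)) u) := by
      intro a b hab
      rw [← hy, ← hy, hin a, hin b, hgn, hgn, hab]
      have : (L ^ (n b - n a)) ((L ^ (n a)) (g ↑(i b))) = (L ^ (n b)) (g ↑(i b)) := by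
        have e : (L ^ (n b - n a) * L ^ (n a)) (g ↑(i b)) = (L ^ (n b)) (g ↑(i b)) := by
          rw [← zpow_add, sub_add_cancel]
        exact e
      rw [this]
    have hex : ∃ d : ℕ, (L ^ d) u ∈ AddSubgroup.closure ((fun j : ℕ => (L ^ j) u) '' Set.Iio d) ∧
      (L⁻¹) u ∈ AddSubgroup.closure ((fun j : ℕ => (L ^ j) u) '' Set.Iio d) := by
      rcases le_total (n k) (n k') with h | h
      · obtain ⟨m, hm⟩ := Int.eq_ofNat_of_zero_le (sub_nonneg.mpr h)
        refine relation L u k k' m hne ?_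
        have := hrel k k' heq
        rw [hm, zpow_natCast] at this
        exact this
      · obtain ⟨m, hm⟩ := Int.eq_ofNat_of_zero_le (sub_nonneg.mpr h)
        refine relation L u k' k m hne.symm ?_
        have := hrel k' k heq.symm
        rw [hm, zpow_natCast] at this
        exact this
    obtain ⟨d, h1, h2⟩ := hex
    refine ⟨((Set.finite_Iio d).image (fun j : ℕ => (L ^ j) u)).toFinset, fun n => ?_⟩
    rw [Set.Finite.coe_toFinset]
    exact orbit_mem L u d h1 h2 n
  choose S hS using claim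
  set D := AddSubgroup.closure ((F.biUnion S ∪ F : Finset A) : Set A) with hD
  have hSD : ∀ i ∈ F, AddSubgroup.closure (S i : Set A) ≤ D := by
    intro i hi
    apply AddSubgroup.closure_mono
    intro x hx
    rw [Finset.mem_coe, Finset.mem_union, Finset.mem_biUnion]
    exact Or.inl ⟨i, hi, hx⟩
  have hgD : ∀ v, g v ∈ D := by
    intro v
    obtain ⟨i, hi, n, hn⟩ := hF v
    rw [hn, hgn]
    exact hSD i hi (hS i n)
  have hstep : ∀ x, f x = x + g x := by
    intro x
    simp only [hf, hg]; abel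
  have hD1 : ∀ x ∈ D, f x ∈ D := by
    intro x hx
    rw [hstep]; exact D.add_mem hx (hgD x)
  have hD2 : ∀ x ∈ D, f⁻¹ x ∈ D := by
    intro x hx
    have h1 : f (f⁻¹ x) = x := Equiv.apply_symm_apply f x
    have h2 : f⁻¹ x = x - g (f⁻¹ x) := by
      have h3 := hstep (f⁻¹ x)
      rw [h1] at h3
      rw [eq_sub_iff_add_eq]; exact h3.symm
    rw [h2]; exact D.sub_mem hx (hgD _)
  have hDn : ∀ (n : ℤ) (i : A), i ∈ D → (f ^ n) i ∈ D := by
    intro n i hi
    induction n using Int.induction_on with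
    | zero => simpa using hi
    | succ j ih =>
      have e1 : (f ^ ((j : ℤ) + 1)) i = f ((f ^ (j : ℤ)) i) := by
        rw [add_comm, zpow_add, zpow_one]; rfl
      rw [e1]; exact hD1 _ ih
    | pred j ih =>
      have e1 : (f ^ (-(j : ℤ) - 1)) i = f⁻¹ ((f ^ (-(j : ℤ))) i) := by
        rw [sub_eq_add_neg, add_comm, zpow_add, zpow_neg_one]; rfl
      rw [e1]; exact hD2 _ ih
  refine ⟨⟨F.biUnion S ∪ F, ?_⟩⟩
  rw [eq_top_iff]
  intro v _
  obtain ⟨i, hi, n, hn⟩ := hF v
  rw [hn]
  apply hDn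
  apply AddSubgroup.subset_closure
  rw [Finset.mem_coe, Finset.mem_union]
  exact Or.inr hi

theorem finite_of_two {A : Type*} [AddCommGroup A] (hfg : AddGroup.FG A)
    (h : (∀ v : A, v + v = 0) ∨ ∀ v : A, ∃ u : A, u + u = v) : Finite A := by
  have hmf : Module.Finite ℤ A := Module.Finite.iff_addGroup_fg.mpr hfg
  obtain ⟨r, hr0, hr⟩ : ∃ r : ℤ, r ≠ 0 ∧ ∀ v : A, r • v = 0 := by
    rcases h with h | h
    · refine ⟨2, by norm_num, fun v => ?_⟩
      rw [two_zsmul]; exact h v
    · obtain ⟨r, h1, h2⟩ := Submodule.exists_sub_one_mem_and_smul_eq_zero_of_fg_of_le_smul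
        (Ideal.span {(2 : ℤ)}) (⊤ : Submodule ℤ A) hmf.fg_top (by
          intro v _
          obtain ⟨u, hu⟩ := h v
          have : v = (2 : ℤ) • u := by rw [two_zsmul, hu]
          rw [this]
          exact Submodule.smul_mem_smul (Ideal.mem_span_singleton_self 2) Submodule.mem_top)
      refine ⟨r, ?_, fun v => h2 v Submodule.mem_top⟩
      rintro rfl
      rw [Ideal.mem_span_singleton] at h1
      obtain ⟨c, hc⟩ := h1
      omega
  apply Module.finite_of_fg_torsion A
  intro v
  exact ⟨⟨r, mem_nonZeroDivisors_of_ne_zero hr0⟩, hr v⟩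

theorem abelian_case {Ω G : Type*} [Infinite Ω] [Group G] [MulAction G Ω] [FaithfulSMul G Ω]
    (hq : MulAction.IsQuasiPreprimitive G Ω) (a : G)
    (ha : Finite (MulAction.orbitRel.Quotient (Subgroup.zpowers a) Ω))
    (A : Subgroup G) (hA : A.Normal)
    (hcomm : ∀ x ∈ A, ∀ y ∈ A, x * y = y * x) : A = ⊥ := by
  classical
  by_contra hne
  have htrans : ∀ M : Subgroup G, M.Normal → M ≠ ⊥ → ∀ x y : Ω, ∃ m ∈ M, m • x = y := by
    intro M hM hMne x y
    have hfix : MulAction.fixedPoints M Ω ≠ .univ := by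
      intro h
      apply hMne
      rw [Subgroup.eq_bot_iff_forall]
      intro m hm
      apply FaithfulSMul.eq_of_smul_eq_smul (α := Ω)
      intro z
      have hz : z ∈ MulAction.fixedPoints M Ω := by rw [h]; trivial
      have := hz ⟨m, hm⟩
      rw [one_smul]
      exact this
    have ht : MulAction.IsPretransitive M Ω :=
      MulAction.IsQuasiPreprimitive.isPretransitive_of_normal (G := G) hfix
    obtain ⟨m, hm⟩ := MulAction.exists_smul_eq M x y
    exact ⟨m, m.2, hm⟩
  obtain ⟨ω⟩ : Nonempty Ω := inferInstance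
  have hfree : ∀ m ∈ A, ∀ m' ∈ A, m • ω = m' • ω → m = m' := by
    intro m hm m' hm' h
    apply FaithfulSMul.eq_of_smul_eq_smul (α := Ω)
    intro z
    obtain ⟨k, hk, rfl⟩ := htrans A hA hne ω z
    rw [smul_smul, smul_smul, hcomm m hm k hk, hcomm m' hm' k hk, mul_smul, mul_smul, h]
  let _ : CommGroup A := { (inferInstance : Group A) with
    mul_comm := fun x y => Subtype.ext (hcomm x x.2 y y.2) }
  -- the bijection
  have hbij : Function.Bijective (fun v : Additive A => ((Additive.toMul v : A) : G) • ω) := by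
    constructor
    · intro v v' h
      apply Additive.toMul.injective
      exact Subtype.ext (hfree _ (Additive.toMul v).2 _ (Additive.toMul v').2 h)
    · intro z
      obtain ⟨k, hk, rfl⟩ := htrans A hA hne ω z
      exact ⟨Additive.ofMul ⟨k, hk⟩, rfl⟩
  let φ : Additive A ≃ Ω := Equiv.ofBijective _ hbij
  have hφ : ∀ v : Additive A, φ v = ((Additive.toMul v : A) : G) • ω := fun v => rfl
  let f : Equiv.Perm (Additive A) := (φ.trans (MulAction.toPerm a)).trans φ.symm
  have hf1 : ∀ v, φ (f v) = a • φ v := by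
    intro v
    change φ (φ.symm (a • φ v)) = a • φ v
    rw [Equiv.apply_symm_apply]
  have hf1' : ∀ v, φ (f⁻¹ v) = a⁻¹ • φ v := by
    intro v
    have h1 : φ (f (f⁻¹ v)) = a • φ (f⁻¹ v) := hf1 _
    have h2 : f (f⁻¹ v) = v := Equiv.apply_symm_apply f v
    rw [h2] at h1
    rw [h1, inv_smul_smul]
  have hfn : ∀ (n : ℤ) (v : Additive A), φ ((f ^ n) v) = (a ^ n) • φ v := by
    intro n v
    induction n using Int.induction_on with
    | zero => simp
    | succ i ih =>
      have e1 : (f ^ ((i : ℤ) + 1)) v = f ((f ^ (i : ℤ)) v) := by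
        rw [add_comm, zpow_add, zpow_one]; rfl
      rw [e1, hf1, ih, smul_smul, add_comm, zpow_add, zpow_one]
    | pred i ih =>
      have e1 : (f ^ (-(i : ℤ) - 1)) v = f⁻¹ ((f ^ (-(i : ℤ))) v) := by
        rw [sub_eq_add_neg, add_comm, zpow_add, zpow_neg_one]; rfl
      rw [e1, hf1', ih, smul_smul, sub_eq_add_neg, add_comm (-(i : ℤ)), zpow_add, zpow_neg_one]
  let L : Additive A ≃ₗ[ℤ] Additive A :=
    (MulEquiv.toAdditive (MulAut.conjNormal (H := A) a)).toIntLinearEquiv
  obtain ⟨w, hw⟩ : ∃ w : Additive A, φ w = a • ω := ⟨φ.symm (a • ω), φ.apply_symm_apply _⟩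
  have hLf : ∀ v, f v = L v + w := by
    intro v
    apply φ.injective
    rw [hf1, hφ, hφ]
    have h1 : ((Additive.toMul (L v + w) : A) : G)
        = (a * ((Additive.toMul v : A) : G) * a⁻¹) * ((Additive.toMul w : A) : G) := rfl
    rw [h1, mul_smul, ← hφ w, hw, smul_smul, smul_smul]
    congr 1
    group
  -- finitely many orbits
  have := Fintype.ofFinite (MulAction.orbitRel.Quotient (Subgroup.zpowers a) Ω)
  let F : Finset (Additive A) :=
    Finset.univ.image (fun q : MulAction.orbitRel.Quotient (Subgroup.zpowers a) Ω =>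
      φ.symm (Quotient.out q))
  have hF : ∀ v, ∃ i ∈ F, ∃ n : ℤ, v = (f ^ n) i := by
    intro v
    have h1 : (MulAction.orbitRel (Subgroup.zpowers a) Ω) (φ v)
        (Quotient.out (Quotient.mk (MulAction.orbitRel (Subgroup.zpowers a) Ω) (φ v))) :=
      (MulAction.orbitRel (Subgroup.zpowers a) Ω).symm
        (@Quotient.mk_out _ (MulAction.orbitRel (Subgroup.zpowers a) Ω) (φ v))
    rw [MulAction.orbitRel_apply] at h1
    obtain ⟨⟨c, hc⟩, hcv⟩ := h1
    obtain ⟨n, hn⟩ := Subgroup.mem_zpowers_iff.mp hc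
    refine ⟨φ.symm (Quotient.out (Quotient.mk (MulAction.orbitRel (Subgroup.zpowers a) Ω)
      (φ v))), Finset.mem_image.mpr ⟨_, Finset.mem_univ _, rfl⟩, n, ?_⟩
    apply φ.injective
    rw [hfn, Equiv.apply_symm_apply, hn]
    exact hcv.symm
  have hfg : AddGroup.FG (Additive A) := core L w f hLf F hF
  have hinf : Infinite (Additive A) := Infinite.of_injective φ.symm φ.symm.injective
  -- the squares
  let B : Subgroup G := (powMonoidHom 2 : A →* A).range.map A.subtype
  have hBmem : ∀ x : G, x ∈ B ↔ ∃ v ∈ A, v * v = x := by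
    intro x
    constructor
    · rintro ⟨y, ⟨v, rfl⟩, rfl⟩
      refine ⟨v, v.2, ?_⟩
      simp [pow_two]
    · rintro ⟨v, hv, rfl⟩
      refine ⟨⟨v, hv⟩ * ⟨v, hv⟩, ⟨⟨v, hv⟩, ?_⟩, rfl⟩
      simp [pow_two]
  have hBn : B.Normal := by
    constructor
    intro x hx g
    rw [hBmem] at hx ⊢
    obtain ⟨v, hv, rfl⟩ := hx
    exact ⟨g * v * g⁻¹, hA.conj_mem v hv g, by group⟩
  have hfin : Finite (Additive A) := by
    apply finite_of_two hfg
    rcases eq_or_ne B ⊥ with hB | hB
    · left
      intro v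
      have h1 : ((Additive.toMul v : A) : G) * ((Additive.toMul v : A) : G) ∈ B :=
        (hBmem _).mpr ⟨_, (Additive.toMul v).2, rfl⟩
      rw [hB, Subgroup.mem_bot] at h1
      exact Additive.toMul.injective (Subtype.ext h1)
    · right
      intro v
      obtain ⟨m, hm, hmv⟩ := htrans B hBn hB ω (φ v)
      obtain ⟨u, hu, rfl⟩ := (hBmem m).mp hm
      refine ⟨Additive.ofMul ⟨u, hu⟩, ?_⟩
      apply Additive.toMul.injective
      apply Subtype.ext
      exact hfree _ (A.mul_mem hu hu) _ (Additive.toMul v).2 hmv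
  exact not_finite (Additive A)

/-- **Result.** Let `G` be a quasiprimitive (for instance primitive) group of permutations of an
infinite set `Ω` which contains a permutation `a` with only finitely many cycles (the cyclic group
generated by `a` has only finitely many orbits on `Ω`). Then every soluble normal subgroup of `G`
is trivial. -/
theorem result {Ω G : Type*} [Infinite Ω] [Group G] [MulAction G Ω] [FaithfulSMul G Ω]
    (hq : MulAction.IsQuasiPreprimitive G Ω) (a : G)
    (ha : Finite (MulAction.orbitRel.Quotient (Subgroup.zpowers a) Ω))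
    (N : Subgroup G) (hN : N.Normal) (hsol : Group.IsSolvable N) : N = ⊥ := by
  classical
  by_contra hne
  obtain ⟨n, hn⟩ := (Group.isSolvable_def N).mp hsol
  -- all derived terms are trivial
  have key : ∀ k : ℕ, derivedSeries N (n - k) = ⊥ := by
    intro k
    induction k with
    | zero => simpa using hn
    | succ k ih =>
      rcases Nat.lt_or_ge k n with hk | hk
      · have e : n - k = (n - (k + 1)) + 1 := by omega
        rw [e, derivedSeries_succ] at ih
        set M := derivedSeries N (n - (k + 1)) with hM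
        have hMc : M.Characteristic := by rw [hM]; infer_instance
        have hn2 : (M.map N.subtype).Normal := ConjAct.normal_of_characteristic_of_normal
        have hcomm : ∀ x ∈ M.map N.subtype, ∀ y ∈ M.map N.subtype, x * y = y * x := by
          rintro _ ⟨x, hx, rfl⟩ _ ⟨y, hy, rfl⟩
          have h1 := Subgroup.commutator_mem_commutator hx hy
          rw [ih, Subgroup.mem_bot, commutatorElement_eq_one_iff_mul_comm] at h1
          rw [← map_mul, h1, map_mul]
        have h2 := abelian_case hq a ha (M.map N.subtype) hn2 hcomm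
        exact (Subgroup.map_eq_bot_iff_of_injective M N.subtype_injective).mp h2
      · have e : n - (k + 1) = n - k := by omega
        rw [e]; exact ih
  have h0 := key n
  rw [Nat.sub_self, derivedSeries_zero] at h0
  apply hne
  rw [Subgroup.eq_bot_iff_forall]
  intro x hx
  have : (⟨x, hx⟩ : N) ∈ (⊤ : Subgroup N) := Subgroup.mem_top _
  rw [h0, Subgroup.mem_bot] at this
  exact congrArg Subtype.val this

end Pool.Agent.Results.MP_291637_al.NoSolubleNormal
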